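import Pool.Agent.helper58.FS.Defs
import Pool.Agent.helper96.TC.H0
import Pool.Agent.helper88.TC.R

/-!
# [FS-M] stub (statements with sorry), NOT to be imported by results

Library (all landed): Pool.Agent.helper96.TC.{H0a,H0,S4} (push_bd, push_comp, push_cyc, push_bdy, HZ_of_equiv, HZ_of_contractible, bdy_zero_of_path, sum_bdy_zero, small_cycle, small_bdy), Pool.Agent.helper88.TC.{MV,R} (mv1, mv2, exists_inter,
push_inc_injective, push_incL_injective, cyc_of_push_incL, bdy_le_cyc, sum_push, sum_zero_of_push).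
hz_homeo: HZ_of_equiv. d0_homeo: push along e, e.symm (or via bdy). preconnected_of_d0: if X = A ⊔ B with A, B nonempty clopen, c = [a] - [b] has sum 0, so c = bd w; the functional c ↦ sum of the coefficients of the points in A kills boundaries
(the two end points of a path lie both in A or both in B), but is 1 on c.
bdy_inter: first for A ∪ B = univ (as sets A, B in a space): push_L z = bd a, push_R z = bd b; push a - push b is a cycle of X (degree j+1), = bd w by h3; small_bdy (u := a, v := -b): push a - push b = bd (push u' + push v');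
exists_inter: a - bd u' = push_L e, b + bd v' = push_R e; push_L (bd e) = bd a = push_L z, so z = bd e by injectivity. Then transport to A, B ⊆ X along the homeomorphisms between subsets of the subtype ↥(A ∪ B) and subsets of X.
hz_inter, d0_inter (a 0-chain of sum 0 is pushed to chains of sum 0), acyc_inter: immediate. ne_inter: preconnected_of_d0. hz_union: mv2: z ∈ cyc X j gives c ∈ cyc (A ∩ B) (j-1) which is a boundary by h3 (j = 1: c has sum 0 because push c is a
boundary in A, sum_zero_of_push / sum_bdy_zero), so z ~ push a + push b with cycles a, b, boundaries by h1, h2.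
-/

set_option autoImplicit false

open scoped Matrix
open Pool.Agent.helper73.TC

namespace Pool.Agent.helper58.FS

variable (F : Type) [Field F] {X Y : Type} [TopologicalSpace X] [TopologicalSpace Y]

theorem hz_homeo (e : X ≃ₜ Y) (j : ℕ) (h : HZ F X j) : HZ F Y j := sorry
theorem d0_homeo (e : X ≃ₜ Y) (h : D0 F X) : D0 F Y := sorry
theorem acyc_homeo (e : X ≃ₜ Y) (h : Acyc F X) : Acyc F Y := sorry
theorem d0_of_path [PathConnectedSpace X] : D0 F X := sorry
theorem acyc_contractible [ContractibleSpace X] : Acyc F X := sorry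
theorem preconnected_of_d0 (h : D0 F X) : PreconnectedSpace X := sorry

/-- exactness of Mayer-Vietoris at `H_j(A ∩ B)` -/
theorem bdy_inter (A B : Set X) (hA : IsOpen A) (hB : IsOpen B) (j : ℕ)
    (z : SC F ↥(A ∩ B) j) (hz : z ∈ cyc F ↥(A ∩ B) j)
    (h1 : push F (⟨fun x => ⟨x.1, x.2.1⟩, by fun_prop⟩ : C(↥(A ∩ B), A)) j z ∈ bdy F A j)
    (h2 : push F (⟨fun x => ⟨x.1, x.2.2⟩, by fun_prop⟩ : C(↥(A ∩ B), B)) j z ∈ bdy F B j)
    (h3 : HZ F ↥(A ∪ B) (j + 1)) : z ∈ bdy F ↥(A ∩ B) j := sorry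

theorem hz_inter (A B : Set X) (hA : IsOpen A) (hB : IsOpen B) (j : ℕ) (hj : 1 ≤ j)
    (h1 : HZ F A j) (h2 : HZ F B j) (h3 : HZ F ↥(A ∪ B) (j + 1)) : HZ F ↥(A ∩ B) j := sorry

theorem d0_inter (A B : Set X) (hA : IsOpen A) (hB : IsOpen B)
    (h1 : D0 F A) (h2 : D0 F B) (h3 : HZ F ↥(A ∪ B) 1) : D0 F ↥(A ∩ B) := sorry

theorem ne_inter (A B : Set X) (hA : IsOpen A) (hB : IsOpen B) (h1 : A.Nonempty)
    (h2 : B.Nonempty) (h3 : D0 F ↥(A ∪ B)) : (A ∩ B).Nonempty := sorry

theorem acyc_inter (A B : Set X) (hA : IsOpen A) (hB : IsOpen B)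
    (h1 : Acyc F A) (h2 : Acyc F B) (h3 : Acyc F ↥(A ∪ B)) : Acyc F ↥(A ∩ B) := sorry

/-- Mayer-Vietoris in the other direction: homology of a union -/
theorem hz_union (A B : Set X) (hA : IsOpen A) (hB : IsOpen B) (hAB : A ∪ B = Set.univ) (j : ℕ)
    (hj : 1 ≤ j) (h1 : HZ F A j) (h2 : HZ F B j)
    (h3 : (2 ≤ j → HZ F ↥(A ∩ B) (j - 1)) ∧ (j = 1 → D0 F ↥(A ∩ B) ∧ (A ∩ B).Nonempty)) :
    HZ F X j := sorry

end Pool.Agent.helper58.FS
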