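import Pool.Agent.helper58.FS.Defs

/-!
# [FS-O] stub (statements with sorry), NOT to be imported by results

exists_order: extend an injective enumeration of a subset E ⊊ W by a vertex of W \ E adjacent to E (NoSep with A = E, B = W \ E); induction on |W \ E|; Fin.snoc.
exists_comp: C ⊆ D minimal (Finset.exists_minimal / strong induction on card) with y ∈ C and no edges between C and D \ C; if C = A ∪ B without edges, y ∈ A say, then A has the same property.
-/

set_option autoImplicit false

open scoped Matrix
open Pool.Agent.helper73.TC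

namespace Pool.Agent.helper58.FS

variable {V : Type} [Fintype V] [DecidableEq V] (G : SimpleGraph V)

/-- enumeration of a connected set starting at `x`, each later vertex adjacent to an earlier one -/
theorem exists_order (W : Finset V) (hW : NoSep G W) (x : V) (hx : x ∈ W) :
    ∃ (r : ℕ) (e : Fin (r + 1) → V), e 0 = x ∧ (∀ i, e i ∈ W) ∧ (∀ v ∈ W, ∃ i, e i = v) ∧
      Function.Injective e ∧ ∀ j : Fin (r + 1), j ≠ 0 → ∃ i, i < j ∧ G.Adj (e i) (e j) := sorry

/-- the component of `y` in the graph induced on `D` -/
theorem exists_comp (D : Finset V) (y : V) (hy : y ∈ D) :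
    ∃ C : Finset V, C ⊆ D ∧ y ∈ C ∧ NoSep G C ∧ ∀ a ∈ C, ∀ b ∈ D, b ∉ C → ¬ G.Adj a b := sorry

end Pool.Agent.helper58.FS
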