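import Pool.Agent.helper58.FS.Defs

/-!
# [FS-E] stub (statements with sorry), NOT to be imported by results

exists_generic: multiply the polynomials of the W ∈ S and, for every T with |T| = ρ (choose T ≃ Fin ρ), the determinant polynomial det (X (e i, j)) (nonzero: it is 1 at
q (e i) = Pi.single i 1); a nonzero polynomial over an infinite field has a non-zero (MvPolynomial.funext). grig_one: f = ∏_{v ∈ W} X (v, 0); q v 0 ≠ 0 and q v ⬝ w v = 0 give w v = 0; A = 0.
-/

set_option autoImplicit false

open scoped Matrix
open Pool.Agent.helper73.TC

namespace Pool.Agent.helper58.FS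

variable {V : Type} [Fintype V] [DecidableEq V] (G : SimpleGraph V) {K : Type} [Field K]

/-- generic positions: finitely many generic conditions hold at the same time -/
theorem exists_generic [Infinite K] (ρ : ℕ) (S : Finset (Finset V)) (hS : ∀ W ∈ S, GRig G K ρ W) :
    ∃ q : V → Fin ρ → K, (∀ W ∈ S, Rig G ρ q W) ∧
      ∀ T : Finset V, T.card = ρ → LinearIndependent K (fun v : T => q v) := sorry

/-- `K^1` -/
theorem grig_one (W : Finset V) : GRig G K 1 W := sorry

end Pool.Agent.helper58.FS
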