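import Pool.Agent.helper58.FS.Defs

/-!
# [FS-G] stub (statements with sorry), NOT to be imported by results

Rigid at ONE position (no genericity needed) implies generically rigid. Let X = V → Fin ρ → K, Y = (V → K) × (V → V → K), Φ_q : X → Y, Φ_q w = (q v ⬝ w v for v ∈ W (0 otherwise);
q u ⬝ w v + q v ⬝ w u for u, v ∈ W adjacent (0 otherwise)); T = (skew matrices) × (functions supported off W), τ_q (A, g) v = A *ᵥ q v for v ∈ W, g v for v ∉ W.
Φ_q ∘ τ_q = 0 for every q (skew, char ≠ 2). Rig q W ⟺ ker Φ_q ≤ range τ_q. Let q₀ be the given position: ker Φ_{q₀} = range τ_{q₀}. Choose linear s : X → T and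
h : Y → X with h ∘ Φ_{q₀} + τ_{q₀} ∘ s = id (possible: X = R ⊕ R', R = range τ_{q₀}; s = right inverse of τ_{q₀} on R, 0 on R'; Φ_{q₀} injective on R', h = its left inverse).
Psi_q := h ∘ Φ_q + τ_q ∘ s : X → X is the identity at q₀, its determinant is a polynomial f in q (entries are polynomials: LinearMap.toMatrix / Matrix.det of a matrix over
MvPolynomial; Φ_q, τ_q are linear in q), f(q₀) = 1, so f ≠ 0. If f(q) ≠ 0, Psi_q is bijective; let R_q = range τ_q. Psi_q maps R_q into R_q (Φ_q τ_q = 0), injective and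
R_q is finite dimensional, so Psi_q(R_q) = R_q. If w ∈ ker Φ_q then Psi_q w = τ_q (s w) ∈ R_q = Psi_q(R_q), so w ∈ R_q. (Any other proof is fine, e.g. with a maximal minor.)
-/

set_option autoImplicit false

open scoped Matrix
open Pool.Agent.helper73.TC

namespace Pool.Agent.helper58.FS

variable {V : Type} [Fintype V] [DecidableEq V] (G : SimpleGraph V) {K : Type} [Field K]

theorem grig_of_rig [CharZero K] (ρ : ℕ) (q : V → Fin ρ → K) (W : Finset V) (h : Rig G ρ q W) :
    GRig G K ρ W := sorry

end Pool.Agent.helper58.FS
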