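import Pool.Agent.helper58.FS.Defs
import Pool.Agent.helper58.FS.Stub.G
import Pool.Agent.helper58.FS.Stub.E

/-!
# [FS-U] stub (statements with sorry), NOT to be imported by results

glue_fixed: choose A v (v ∈ D). Adjacent v, v' ∈ D: T ⊆ P v ∩ P v' with |T| = ρ, q is a basis on T, A v and A v' agree on it, so A v = A v'. Fix v₀ ∈ D; {v ∈ D | A v = A v₀}
and the rest have no edges between them, by NoSep the rest is empty. grig_glue: exists_generic for the sets P v (D.image P), glue_fixed, grig_of_rig.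
-/

set_option autoImplicit false

open scoped Matrix
open Pool.Agent.helper73.TC

namespace Pool.Agent.helper58.FS

variable {V : Type} [Fintype V] [DecidableEq V] (G : SimpleGraph V) {K : Type} [Field K]

/-- gluing at a fixed position, for one motion `w`: the skew matrices agree -/
theorem glue_fixed (ρ : ℕ) (q w : V → Fin ρ → K)
    (hgen : ∀ T : Finset V, T.card = ρ → LinearIndependent K (fun v : T => q v))
    (D : Finset V) (hD : NoSep G D) (hne : D.Nonempty) (P : V → Finset V)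
    (hP : ∀ v ∈ D, ∃ A : Matrix (Fin ρ) (Fin ρ) K, Aᵀ = -A ∧ ∀ u ∈ P v, w u = A *ᵥ q u)
    (hov : ∀ v ∈ D, ∀ v' ∈ D, G.Adj v v' → ρ ≤ (P v ∩ P v').card) :
    ∃ A : Matrix (Fin ρ) (Fin ρ) K, Aᵀ = -A ∧ ∀ v ∈ D, ∀ u ∈ P v, w u = A *ᵥ q u := sorry

theorem grig_glue [CharZero K] (ρ : ℕ) (D : Finset V) (hD : NoSep G D) (hne : D.Nonempty)
    (P : V → Finset V) (hP : ∀ v ∈ D, GRig G K ρ (P v))
    (hov : ∀ v ∈ D, ∀ v' ∈ D, G.Adj v v' → ρ ≤ (P v ∩ P v').card) :
    GRig G K ρ (D.biUnion P) := sorry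

/-- `ρ` vertices in general position: a vector orthogonal to all of them is zero -/
theorem eq_zero_of_orth (ρ : ℕ) (q : V → Fin ρ → K)
    (hgen : ∀ T : Finset V, T.card = ρ → LinearIndependent K (fun v : T => q v))
    (S : Finset V) (hS : ρ ≤ S.card) (y : Fin ρ → K) (hy : ∀ v ∈ S, q v ⬝ᵥ y = 0) : y = 0 := sorry

end Pool.Agent.helper58.FS
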