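import Pool.Agent.helper58.FS.Defs
import Pool.Agent.helper96.TC.H0
import Pool.Agent.helper88.TC.R

/-!
# [FS-J1] stub (statements with sorry), NOT to be imported by results

push z = bd w with w a chain of (⋂ A i)ᶜ. The union S of the (compact) images of the simplices in the support of w is compact and disjoint from ⋂ A i; by compactness (A i ∩ S decreasing compact with empty intersection) A i ∩ S = ∅ for some i.
So w = push w' for a chain w' of (A i)ᶜ (each simplex of w factors through it), and bd w' = push z because pushing both sides to (⋂ A i)ᶜ gives the same chain and the push along an injective map is injective (Finsupp.mapDomain_injective, cf.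
push_inc_injective in Pool.Agent.helper88.TC.MV; i.e. compare after pushing to X).
-/

set_option autoImplicit false

open scoped Matrix
open Pool.Agent.helper73.TC

namespace Pool.Agent.helper58.FS

variable (F : Type) [Field F] {X : Type} [TopologicalSpace X] [T2Space X]

/-- compact supports -/
theorem jb_limit (A : ℕ → Set X) (hA : ∀ i, IsCompact (A i)) (hmono : ∀ i, A (i + 1) ⊆ A i)
    (j : ℕ) (z : SC F ↥((A 0)ᶜ) j)
    (hz : push F (⟨Set.inclusion (Set.compl_subset_compl.2 (Set.iInter_subset A 0)),
        continuous_inclusion _⟩ : C(↥((A 0)ᶜ), ↥((⋂ i, A i)ᶜ))) j z ∈ bdy F ↥((⋂ i, A i)ᶜ) j) :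
    ∃ (i : ℕ) (hi : A i ⊆ A 0), push F (⟨Set.inclusion (Set.compl_subset_compl.2 hi),
        continuous_inclusion _⟩ : C(↥((A 0)ᶜ), ↥((A i)ᶜ))) j z ∈ bdy F ↥((A i)ᶜ) j := sorry

end Pool.Agent.helper58.FS
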