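import Pool.Agent.helper58.FS.Defs
import Pool.Agent.helper96.TC.H0
import Pool.Agent.helper88.TC.R
import Pool.Agent.helper58.FS.Stub.M
import Pool.Agent.helper58.FS.Stub.J1

/-!
# [FS-J2] stub (statements with sorry), NOT to be imported by results

Induction on the number k of coordinates i such that x ↦ g x i is not constant on A. k = 0: A is a point (hinj), hp. Step: i a nonconstant coordinate, φ = g · i; φ(A) = [a, b], a < b, and every slice A ∩ {φ = c}, c ∈ [a, b], is nonempty compact, convex image,
with fewer nonconstant coordinates: Acyc (A ∩ {φ = c})ᶜ by IH. For a <= s <= t <= b let A[s,t] = A ∩ {s <= φ <= t} (compact, convex image). For a midpoint c: A[s,t]ᶜ = A[s,c]ᶜ ∩ A[c,t]ᶜ, A[s,c]ᶜ ∪ A[c,t]ᶜ = (slice c)ᶜ acyclic.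
(i) Let z be a cycle (for degree 0: of sum 0) of Aᶜ which is not a boundary. By bdy_inter, if the push of z to A[s,t]ᶜ is not a boundary then the push to A[s,c]ᶜ or to A[c,t]ᶜ is not a boundary. Bisection gives nested intervals [s_i, t_i] with lengths → 0 and
intersection {c}; the push to A[s_i,t_i]ᶜ is never a boundary, but the push to (slice c)ᶜ is a boundary (IH: HZ, resp. D0): contradiction to jb_limit.
(ii) nonempty: if A[s,t]ᶜ = ∅ then by ne_inter A[s,c]ᶜ = ∅ or A[c,t]ᶜ = ∅; by bisection all A[s_i,t_i] = univ, so slice c = ⋂ A[s_i,t_i] = univ, but (slice c)ᶜ is nonempty by IH.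
-/

set_option autoImplicit false

open scoped Matrix
open Pool.Agent.helper73.TC

namespace Pool.Agent.helper58.FS

variable (F : Type) [Field F] {X : Type} [TopologicalSpace X] [T2Space X]

theorem jb {n : ℕ} (g : X → Fin n → ℝ) (hg : Continuous g) (hinj : Function.Injective g)
    (hp : ∀ p : X, Acyc F ↥(({p} : Set X)ᶜ)) (A : Set X) (hA : IsCompact A) (hne : A.Nonempty)
    (hconv : Convex ℝ (g '' A)) : Acyc F ↥(Aᶜ) := sorry

end Pool.Agent.helper58.FS
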