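import Pool.Agent.helper58.FS.Defs

/-!
# [FS-R] stub (statements with sorry), NOT to be imported by results

real_eq: x in the hull of the e_i, i ∈ σ: nonnegative, sum 1, zero off σ (Convex set containing the points; Finset.centerMass / convexHull_min), supp x ⊆ σ so supp x ∈ Δ. Conversely x = ∑_{i ∈ supp x} x_i e_i (Convex.sum_mem / Finset.centerMass_mem_convexHull).
exists_supp: uniform weights 1/|τ|. fc_compact: {x ≥ 0, ∑ = 1, x_i = 0 off τ} is closed and bounded, contained in RS (Topology.IsEmbedding.isCompact_iff / isCompact_iff_isCompact_univ on subtypes). fc_convex: convex combinations. fc_empty: sum 1.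
ostar_contractible: straight line homotopy to a point b with supp b = σ: supp ((1-s) x + s b) = supp x for s < 1 and σ for s = 1.
-/

set_option autoImplicit false

open scoped Matrix
open Pool.Agent.helper73.TC

namespace Pool.Agent.helper58.FS

variable {n : ℕ} (Δ : Finset (Finset (Fin n)))

theorem real_eq (hdown : ∀ σ ∈ Δ, ∀ τ : Finset (Fin n), τ ⊆ σ → τ ∈ Δ) :
    (⋃ σ ∈ Δ, convexHull ℝ ((fun i : Fin n => (Pi.single i (1 : ℝ) : Fin n → ℝ)) ''
      (↑σ : Set (Fin n)))) = RS Δ := sorry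

theorem exists_supp (τ : Finset (Fin n)) (hτ : τ ∈ Δ) (hne : τ.Nonempty) :
    ∃ x : RS Δ, supp x.1 = τ := sorry

theorem fc_compact (hdown : ∀ σ ∈ Δ, ∀ τ : Finset (Fin n), τ ⊆ σ → τ ∈ Δ)
    (τ : Finset (Fin n)) (hτ : τ ∈ Δ) : IsCompact (fc Δ τ) := sorry

theorem fc_convex (hdown : ∀ σ ∈ Δ, ∀ τ : Finset (Fin n), τ ⊆ σ → τ ∈ Δ)
    (τ : Finset (Fin n)) (hτ : τ ∈ Δ) : Convex ℝ (Subtype.val '' (fc Δ τ)) := sorry

theorem fc_inter (σ τ : Finset (Fin n)) : fc Δ σ ∩ fc Δ τ = fc Δ (σ ∩ τ) := sorry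

theorem fc_empty : fc Δ ∅ = ∅ := sorry

/-- the open star of a nonempty face is open and contractible -/
theorem ostar_contractible (hdown : ∀ σ ∈ Δ, ∀ τ : Finset (Fin n), τ ⊆ σ → τ ∈ Δ)
    (σ : Finset (Fin n)) (hσ : σ ∈ Δ) (hne : σ.Nonempty) :
    ContractibleSpace ↥{x : RS Δ | σ ⊆ supp x.1} := sorry

theorem open_supp (σ : Finset (Fin n)) : IsOpen {x : RS Δ | σ ⊆ supp x.1} := sorry

end Pool.Agent.helper58.FS
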