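import Pool.Agent.helper58.FS.Defs

/-!
# [FS-C] stub (statements with sorry), NOT to be imported by results

far_dom: u in N(f): apply h.ne to the clique insert u σ and f.
noSep_cn: A ∪ B = cn σ without edges, pick f ∈ cn σ (h.pure), say f ∈ A. N(f) ∩ cn σ ⊆ A and it is nonempty (h.pure for insert f σ, cn_insert). far f is NoSep (h.conn)
and meets A by far_dom, so far f ⊆ A; cn σ = {f} ∪ nb f ∪ far f ⊆ A, B = ∅.
card_cn: induction on k. k = 0: f by pure, g by ne. Step: f ∈ cn σ; cn (insert f σ) = nb (cn σ) f has 2(k+1) elements, add f and some g ∈ far f.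
sep: induction on k (generalizing σ A F B). k = 0 trivial. Step k+1: take a triple (A,F,B) with the same properties and F of minimal cardinality (it is enough to bound
this one). F ≠ ∅ by noSep_cn. Pick f ∈ F. By minimality f is adjacent to some a ∈ A (else move f to B: (A, F \ f, B ∪ f) is again such a triple) and to some b ∈ B.
So (A ∩ N(f), F ∩ N(f), B ∩ N(f)) is such a triple for insert f σ (cn_insert, clique_insert): |F ∩ N(f)| >= 2k. Claim: there is g ∈ F, g ≠ f, not adjacent to f
(then |F| >= 2k + 2). Otherwise far f ⊆ A ∪ B, by NoSep (h.conn) far f ∩ A = ∅ or far f ∩ B = ∅, say far f ∩ B = ∅ (other case symmetric). So B ⊆ N(f) (f ∈ F, f ∉ B), take b ∈ B;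
far_dom gives g ∈ far f adjacent to b; g ∈ A ∪ B, g ∉ A (no edges A-B), so g ∈ B, contradiction.
-/

set_option autoImplicit false

open scoped Matrix
open Pool.Agent.helper73.TC

namespace Pool.Agent.helper58.FS

variable {V : Type} [Fintype V] [DecidableEq V] (G : SimpleGraph V) [DecidableRel G.Adj]

theorem clique_insert {σ : Finset V} (hσ : G.IsClique (σ : Set V)) {f : V} (hf : f ∈ cn G σ) :
    G.IsClique ((insert f σ : Finset V) : Set V) := sorry

theorem cn_insert (σ : Finset V) (f : V) : cn G (insert f σ) = nb G (cn G σ) f := sorry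

theorem not_mem_of_cn {σ : Finset V} {f : V} (hf : f ∈ cn G σ) : f ∉ σ := sorry

/-- every neighbour of `f` has a neighbour far from `f` -/
theorem far_dom {d : ℕ} (h : FlagLike G d) {σ : Finset V} (hσ : G.IsClique (σ : Set V)) {f : V}
    (hf : f ∈ cn G σ) {u : V} (hu : u ∈ nb G (cn G σ) f) :
    ∃ g ∈ far G (cn G σ) f, G.Adj u g := sorry

theorem noSep_cn {d : ℕ} (h : FlagLike G d) {σ : Finset V} (hσ : G.IsClique (σ : Set V))
    (hc : σ.card + 2 ≤ d) : NoSep G (cn G σ) := sorry

theorem card_cn {d : ℕ} (h : FlagLike G d) (k : ℕ) {σ : Finset V} (hσ : G.IsClique (σ : Set V))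
    (hc : σ.card + k + 1 ≤ d) : 2 * (k + 1) ≤ (cn G σ).card := sorry

/-- separating sets in the link of a face are large -/
theorem sep {d : ℕ} (h : FlagLike G d) (k : ℕ) {σ : Finset V} (hσ : G.IsClique (σ : Set V))
    (hc : σ.card + k + 1 ≤ d) (A F B : Finset V) (hU : A ∪ F ∪ B = cn G σ)
    (hAF : Disjoint A F) (hAB : Disjoint A B) (hFB : Disjoint F B)
    (hno : ∀ a ∈ A, ∀ b ∈ B, ¬ G.Adj a b) (hA : A.Nonempty) (hB : B.Nonempty) :
    2 * k ≤ F.card := sorry

end Pool.Agent.helper58.FS
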