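import Pool.Agent.helper58.FS.Defs

/-!
# [FS-F] stub (statements with sorry), NOT to be imported by results

f = the polynomial of h with the variables swapped. Let f(c) ≠ 0, q v k = c (k, v), so Rig (gr Δ) (d+2) q univ. Suppose w'·ℓ = a + ∑_{k ≤ d} g_k θ_k with a in the monomial ideal. Take coefficients at the monomials
x_v² and x_u x_v ({u,v} ∈ Δ): a has coefficient 0 there (Mathlib: mem_ideal_span_monomial_image or induction on the span: every monomial of an element of the ideal is divisible by some ∏_{σ}, σ ∉ Δ; if it divides x_u x_v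
then σ ⊆ {u,v} ∈ Δ, contradiction), and coeff (g_k θ_k) = coefficients of (degree-1 part of g_k)·θ_k. With l v = coeff of x_v in ℓ, w v k = -coeff of x_v in g_k (k ≤ d), w v (last) = l v this says: w is a motion. So w v = A *ᵥ q v,
A skew, A last last = 0; the last component: l v = ∑_{k ≤ d} A last k * c (k, v), i.e. ℓ = ∑ A last k θ_k ∈ the ideal.
-/

set_option autoImplicit false

open scoped Matrix
open Pool.Agent.helper73.TC

namespace Pool.Agent.helper58.FS

theorem algebra_of_grig (K : Type) [Field K] [CharZero K] (d n : ℕ)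
    (Δ : Finset (Finset (Fin n)))
    (hdown : ∀ σ ∈ Δ, ∀ τ : Finset (Fin n), τ ⊆ σ → τ ∈ Δ)
    (hvert : ∀ i : Fin n, ({i} : Finset (Fin n)) ∈ Δ)
    (h : GRig (gr Δ) K (d + 2) Finset.univ) :
    ∃ f : MvPolynomial (Fin (d + 2) × Fin n) K, f ≠ 0 ∧
      ∀ c : Fin (d + 2) × Fin n → K, MvPolynomial.eval c f ≠ 0 →
        ∀ ℓ : MvPolynomial (Fin n) K, ℓ.IsHomogeneous 1 →
          (∑ i : Fin n, MvPolynomial.C (c (Fin.last (d + 1), i)) * MvPolynomial.X i) * ℓ ∈
            (Ideal.span ((fun σ : Finset (Fin n) => ∏ i ∈ σ, (MvPolynomial.X i : MvPolynomial (Fin n) K)) ''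
                {σ : Finset (Fin n) | σ ∉ Δ}) ⊔
             Ideal.span ((fun k : Fin (d + 2) => ∑ i : Fin n, MvPolynomial.C (c (k, i)) * MvPolynomial.X i) ''
                {k : Fin (d + 2) | (k : ℕ) ≤ d})) →
          ℓ ∈
            (Ideal.span ((fun σ : Finset (Fin n) => ∏ i ∈ σ, (MvPolynomial.X i : MvPolynomial (Fin n) K)) ''
                {σ : Finset (Fin n) | σ ∉ Δ}) ⊔
             Ideal.span ((fun k : Fin (d + 2) => ∑ i : Fin n, MvPolynomial.C (c (k, i)) * MvPolynomial.X i) ''
                {k : Fin (d + 2) | (k : ℕ) ≤ d})) := sorry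

end Pool.Agent.helper58.FS
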