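import Pool.Agent.helper58.FS.Defs
import Pool.Agent.helper58.FS.Stub.G
import Pool.Agent.helper58.FS.Stub.E

/-!
# [FS-K] stub (statements with sorry), NOT to be imported by results

By grig_of_rig one position is enough. exists_generic with S = {W} gives q with Rig ρ q W. Position: p v = Fin.cons 1 0, p u = Fin.cons 0 (q u) for u ∈ W. Motion w of p on insert v W:
loop v: w v 0 = 0; edge v u: w u 0 + q u ⬝ (tail of w v) = 0; on W the tails w' u are a motion of q, so w' u = A' *ᵥ q u. A = [[0, -(w v)'],[(w v)', A']] works: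
A *ᵥ p v = (0, (w v)') = w v, A *ᵥ p u = (-(w v)' ⬝ q u, A' *ᵥ q u) = w u.
-/

set_option autoImplicit false

open scoped Matrix
open Pool.Agent.helper73.TC

namespace Pool.Agent.helper58.FS

variable {V : Type} [Fintype V] [DecidableEq V] (G : SimpleGraph V) {K : Type} [Field K]

theorem grig_cone [CharZero K] (ρ : ℕ) (W : Finset V) (v : V) (hv : v ∉ W)
    (hadj : ∀ u ∈ W, G.Adj v u) (h : GRig G K ρ W) : GRig G K (ρ + 1) (insert v W) := sorry

end Pool.Agent.helper58.FS
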