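import Pool.Agent.helper58.FS.Defs

/-!
# [FS-L] stub (statements with sorry), NOT to be imported by results

leading_two: A = ker m ⊕ A' (exists_isCompl), Φ_τ (a, a') = M a + m a' + τ M a'. Φ_0 injective (M a ∈ range m, m a = 0 ⇒ a = 0; then m a' = 0 ⇒ a' = 0), so it has a left inverse Λ;
Λ ∘ Φ_τ = id + τ Λ M₂ has determinant a polynomial in τ with value 1 at 0 (or: id + τ N injective unless -1/τ is an eigenvalue of N, finitely many), so there is τ ≠ 0 with Φ_τ injective.
If (m + τ M)(a + a') = 0 then Φ_τ (τ a, a') = 0, so τ a = 0, a' = 0.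
leading: induction on r for all A, B. r = 0: h gives A = 0. Step: A₁ = ker (m 0), B₁ = B ⧸ range (m 0), maps mkQ ∘ m (succ j) ∘ subtype; if z ∈ A₁ satisfies the hypothesis of these, then
m (succ j) z ∈ range (m 0) ⊔ ⨆_{i<j} range (m (succ i)), and m 0 z = 0, so z = 0. IH: t' with M = ∑ t' j • m (succ j) injective from ker (m 0) to B ⧸ range (m 0); leading_two (m 0) M; t = cons 1 (τ t').
-/

set_option autoImplicit false

open scoped Matrix
open Pool.Agent.helper73.TC

namespace Pool.Agent.helper58.FS

variable {K : Type} [Field K] [Infinite K]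

theorem leading_two {A B : Type} [AddCommGroup A] [Module K A]
    [AddCommGroup B] [Module K B] [FiniteDimensional K A] (m M : A →ₗ[K] B)
    (h : ∀ z : A, m z = 0 → M z ∈ LinearMap.range m → z = 0) :
    ∃ τ : K, Function.Injective (m + τ • M) := sorry

/-- if no nonzero `z` satisfies `m_j z ∈ ∑_{i<j} range m_i` for all `j`, then some linear
combination of the `m_j` is injective -/
theorem leading (r : ℕ) {A B : Type} [AddCommGroup A] [Module K A]
    [AddCommGroup B] [Module K B] [FiniteDimensional K A] (m : Fin r → A →ₗ[K] B)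
    (h : ∀ z : A, (∀ j : Fin r, m j z ∈ ⨆ i : Fin r, ⨆ _ : i < j, LinearMap.range (m i)) → z = 0) :
    ∃ t : Fin r → K, Function.Injective (∑ j, t j • m j) := sorry

end Pool.Agent.helper58.FS
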