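import Pool.Agent.helper58.FS.Defs
import Pool.Agent.helper96.TC.H0
import Pool.Agent.helper88.TC.R
import Pool.Agent.helper58.FS.Stub.M

/-!
# [FS-S] stub (statements with sorry), NOT to be imported by results

acyc_sphere_compl: stereographic projection (Mathlib: stereographic' or stereographic) is a homeomorphism of {p}ᶜ with a Euclidean space, contractible. d0_sphere: isPathConnected_sphere. hz_sphere: the punctured space P_m = {x : Fin m → ℝ // x ≠ 0}
(or EuclideanSpace): HZ P_m j for 1 <= j, j + 1 < m, by induction on m: P_{m+1} = A ∪ B, A = P_{m+1} without the ray {(t,0,..,0), t <= 0}, B = without {t >= 0}: star-shaped about (1,0..0) resp. (-1,0,..,0), contractible; A ∩ B = {(t,y), y ≠ 0} is homotopy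
equivalent to P_m (projection and y ↦ (0,y)); hz_union with degree j-1 for A ∩ B (j = 1: D0 and nonempty, P_m path connected for m >= 2, isPathConnected_compl_singleton_of_one_lt_rank). The sphere is a retract of P_d up to homotopy: HZ_of_equiv with
f : P_d → sphere, x ↦ x/|x|, g = inclusion, f ∘ g = id.
-/

set_option autoImplicit false

open scoped Matrix
open Pool.Agent.helper73.TC

namespace Pool.Agent.helper58.FS

variable (F : Type) [Field F]

theorem acyc_sphere_compl (d : ℕ) (hd : 2 ≤ d) (p : Metric.sphere (0 : EuclideanSpace ℝ (Fin d)) 1) :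
    Acyc F ↥(({p} : Set (Metric.sphere (0 : EuclideanSpace ℝ (Fin d)) 1))ᶜ) := sorry

theorem hz_sphere (d : ℕ) (j : ℕ) (hj : 1 ≤ j) (hjd : j + 1 < d) :
    HZ F (Metric.sphere (0 : EuclideanSpace ℝ (Fin d)) 1) j := sorry

theorem d0_sphere (d : ℕ) (hd : 2 ≤ d) : D0 F (Metric.sphere (0 : EuclideanSpace ℝ (Fin d)) 1) :=
  sorry

end Pool.Agent.helper58.FS
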