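import Pool.Agent.helper58.FS.Defs
import Pool.Agent.helper96.TC.H0
import Pool.Agent.helper88.TC.R
import Pool.Agent.helper58.FS.Stub.M
import Pool.Agent.helper58.FS.Stub.J2
import Pool.Agent.helper58.FS.Stub.R

/-!
# [FS-N] stub (statements with sorry), NOT to be imported by results

acyc_cone: induction on |T|. One face: jb (g = Subtype.val), fc nonempty since {f} ∈ Δ. Step T = insert τ T', T' nonempty: A = (⋃_{T'} fc)ᶜ, B = (fc τ)ᶜ acyclic; A ∪ B = (⋃_{τ' ∈ T'} fc (τ' ∩ τ))ᶜ (fc_inter), family T'.image (· ∩ τ) with at most |T'| members, all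
containing f: acyclic by induction (strong induction on card); acyc_inter. Sets are open because fc is compact, hence closed.
hz_bdry: induction on |σ|. |σ| = 1: the union is fc ∅ = ∅, complement = univ ≃ₜ RS. σ = insert v τ, τ nonempty: ∂σ = fc τ ∪ K, K = ⋃_{u ∈ τ} fc (σ.erase u) (all contain v), fc τ ∩ K = ⋃_{u ∈ τ} fc (τ.erase u) = ∂τ. A = (fc τ)ᶜ and B = Kᶜ are acyclic (acyc_cone), A ∪ B = (∂τ)ᶜ
has HZ (j+1) for j + 1 + |τ| <= m and HZ 1 if 1 + |τ| <= m: hz_inter, d0_inter.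
-/

set_option autoImplicit false

open scoped Matrix
open Pool.Agent.helper73.TC

namespace Pool.Agent.helper58.FS

variable (F : Type) [Field F] {n : ℕ} (Δ : Finset (Finset (Fin n)))

/-- the complement of a nonempty union of faces containing a common vertex is acyclic -/
theorem acyc_cone (hdown : ∀ σ ∈ Δ, ∀ τ : Finset (Fin n), τ ⊆ σ → τ ∈ Δ)
    (hp : ∀ p : RS Δ, Acyc F ↥(({p} : Set (RS Δ))ᶜ)) (f : Fin n)
    (T : Finset (Finset (Fin n))) (hT : T ⊆ Δ) (hf : ∀ τ ∈ T, f ∈ τ) (hne : T.Nonempty) :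
    Acyc F ↥((⋃ τ ∈ T, fc Δ τ)ᶜ) := sorry

/-- complements of boundaries of faces -/
theorem hz_bdry (hdown : ∀ σ ∈ Δ, ∀ τ : Finset (Fin n), τ ⊆ σ → τ ∈ Δ)
    (hp : ∀ p : RS Δ, Acyc F ↥(({p} : Set (RS Δ))ᶜ)) (m : ℕ)
    (hd0 : D0 F (RS Δ)) (hz : ∀ j, 1 ≤ j → j < m → HZ F (RS Δ) j)
    (σ : Finset (Fin n)) (hσ : σ ∈ Δ) (hne : σ.Nonempty) (hc : σ.card ≤ m) :
    D0 F ↥((⋃ v ∈ σ, fc Δ (σ.erase v))ᶜ) ∧
      ∀ j, 1 ≤ j → j + σ.card ≤ m → HZ F ↥((⋃ v ∈ σ, fc Δ (σ.erase v))ᶜ) j := sorry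

end Pool.Agent.helper58.FS
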