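import Pool.Agent.helper58.FS.Defs
import Pool.Agent.helper96.TC.H0
import Pool.Agent.helper88.TC.R
import Pool.Agent.helper58.FS.Stub.M
import Pool.Agent.helper58.FS.Stub.R
import Pool.Agent.helper58.FS.Stub.N

/-!
# [FS-Z] stub (statements with sorry), NOT to be imported by results

Cliques = faces; f ∈ cn σ ⟺ f ∉ σ and insert f σ ∈ Δ (for σ ∈ Δ).
pure: σ ∈ Δ, |σ| + 1 <= d. σ = ∅: a vertex exists since RS is nonempty. σ ≠ ∅: if cn σ = ∅ then σ is a maximal face, O = {x | supp x = σ} = {x | σ ⊆ supp x} is open, nonempty, and closed in (∂σ)ᶜ (O = fc σ ∩ (∂σ)ᶜ); (∂σ)ᶜ is preconnected by hz_bdry (m = d - 1) + preconnected_of_d0,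
so (∂σ)ᶜ = O, hence RS = fc σ, contradicting (fc σ)ᶜ nonempty (acyc_cone with T = {σ}).
ne, conn: σ ∈ Δ, f ∈ cn σ. T1 = {τ ∈ Δ | f ∈ τ}, K1 = ⋃_{T1} fc τ = {x | insert f (supp x) ∈ Δ}; σ = ∅: K1ᶜ is acyclic (acyc_cone). σ ≠ ∅: U = {x | σ ⊆ supp x} open, contractible; K1ᶜ ∪ U = (⋃ {fc τ | f ∈ τ ∈ Δ, ¬ σ ⊆ τ})ᶜ is acyclic (acyc_cone; nonempty family: {f});
so K1ᶜ ∩ U is nonempty (ne_inter) and D0 (d0_inter). W = K1ᶜ ∩ U (resp. K1ᶜ) = {x | σ ⊆ supp x, supp x meets D} where D = far (cn σ) f: if σ ⊆ supp x and insert f (supp x) ∉ Δ then some g ∈ supp x, g ≠ f, {f,g} ∉ Δ (flag), g ∈ cn σ. This gives ne.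
conn: D = A ∪ B without edges; W = W_A ∪ W_B, W_A = {x ∈ W | supp x meets A} open, disjoint (supp x is a clique); W is preconnected; if A, B are nonempty, W_A and W_B are nonempty (exists_supp (insert a σ)), contradiction.
-/

set_option autoImplicit false

open scoped Matrix
open Pool.Agent.helper73.TC

namespace Pool.Agent.helper58.FS

variable {n : ℕ} (Δ : Finset (Finset (Fin n)))

theorem isClique_iff (hdown : ∀ σ ∈ Δ, ∀ τ : Finset (Fin n), τ ⊆ σ → τ ∈ Δ)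
    (hvert : ∀ i : Fin n, ({i} : Finset (Fin n)) ∈ Δ)
    (hflag : ∀ σ : Finset (Fin n), (∀ i ∈ σ, ∀ j ∈ σ, ({i, j} : Finset (Fin n)) ∈ Δ) → σ ∈ Δ)
    (σ : Finset (Fin n)) : (gr Δ).IsClique (σ : Set (Fin n)) ↔ σ ∈ Δ := sorry

theorem flagLike_of (F : Type) [Field F] (d : ℕ) (hd : 2 ≤ d)
    (hdown : ∀ σ ∈ Δ, ∀ τ : Finset (Fin n), τ ⊆ σ → τ ∈ Δ)
    (hvert : ∀ i : Fin n, ({i} : Finset (Fin n)) ∈ Δ)
    (hflag : ∀ σ : Finset (Fin n), (∀ i ∈ σ, ∀ j ∈ σ, ({i, j} : Finset (Fin n)) ∈ Δ) → σ ∈ Δ)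
    (hp : ∀ p : RS Δ, Acyc F ↥(({p} : Set (RS Δ))ᶜ))
    (hd0 : D0 F (RS Δ)) (hz : ∀ j, 1 ≤ j → j + 1 < d → HZ F (RS Δ) j)
    (hne : Nonempty (RS Δ)) : FlagLike (gr Δ) d := sorry

end Pool.Agent.helper58.FS
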