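import Pool.Agent.helper58.FS.Defs
import Pool.Agent.helper58.FS.Stub.U
import Pool.Agent.helper58.FS.Stub.O

/-!
# [FS-T1] stub (statements with sorry), NOT to be imported by results

trick_stage. If y ∈ E or y is adjacent to E: hz. Otherwise y ∈ D := {v ∈ W | v ∉ E, v not adjacent to E}; x ∉ D. C := component of y in D (exists_comp). Bodies P v = (st W v).erase x,
v ∈ C: contains no vertex of E (v ∈ D), x ≠ v, so w restricted to P v is a motion (hloop, hedge): piece gives skew A_v. ov + glue_fixed (D := C): one skew A with w u = A *ᵥ q u on all P v, v ∈ C.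
Put w' = w - A q (A q satisfies all homogeneous equations for every vertex: skew, char ≠ 2), so w' = 0 on the bodies and w' satisfies the same equations as w. Let F = {u ∈ nb W x | u ∉ C, u adjacent to some v ∈ C},
A' = {u ∈ nb W x | u ∈ C} ∋ y, B' = rest of nb W x ∋ e₀ (e₀ ∈ E is not in C and not adjacent to C). No edges between A' and B'. h.sep: ρ <= |F| + 1. For u ∈ F: u ∉ E (C is not adjacent to E),
u ∉ D (component), so z u = 0 by hz; u ∈ P v for some v ∈ C, so w' u = 0; the edge x u gives q u ⬝ w' x = 0. The loop at x: q x ⬝ w' x = 0. So q v ⬝ w' x = 0 for v ∈ insert x F (|insert x F| >= ρ):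
w' x = 0 (eq_zero_of_orth). The edge x y: z y = q x ⬝ w' y + q y ⬝ w' x = 0 since y ∈ P y.
-/

set_option autoImplicit false

open scoped Matrix
open Pool.Agent.helper73.TC

namespace Pool.Agent.helper58.FS

variable {V : Type} [Fintype V] [DecidableEq V] (G : SimpleGraph V) [DecidableRel G.Adj]
variable {K : Type} [Field K] [CharZero K]

/-- later stages: `E` = the vertices treated so far, `x` the new one. `w` satisfies the equations off `E`
with right hand side `z` on the edges at `x`, `z` vanishes on the closed neighbourhood of `E`.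
Then `z` vanishes on the neighbours of `x`. -/
theorem trick_stage (ρ : ℕ) (q : V → Fin ρ → K) (W : Finset V) (h : TrickHyp G ρ q W)
    (E : Finset V) (hE : E ⊆ W) (x : V) (hx : x ∈ W) (hxE : x ∉ E) (e₀ : V) (he₀ : e₀ ∈ E)
    (hadj : G.Adj e₀ x) (z : V → K) (hz : ∀ v ∈ W, (v ∈ E ∨ ∃ e ∈ E, G.Adj e v) → z v = 0)
    (w : V → Fin ρ → K) (hloop : ∀ v ∈ W, v ∉ E → q v ⬝ᵥ w v = 0)
    (hedge : ∀ u ∈ W, u ∉ E → u ≠ x → ∀ v ∈ W, v ∉ E → v ≠ x → G.Adj u v →
      q u ⬝ᵥ w v + q v ⬝ᵥ w u = 0)
    (hxedge : ∀ v ∈ W, v ∉ E → G.Adj x v → q x ⬝ᵥ w v + q v ⬝ᵥ w x = z v) :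
    ∀ y ∈ W, G.Adj x y → z y = 0 := sorry

end Pool.Agent.helper58.FS
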