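import Pool.Agent.helper58.FS.Defs
import Pool.Agent.helper58.FS.Stub.U
import Pool.Agent.helper58.FS.Stub.T1

/-!
# [FS-T2] stub (statements with sorry), NOT to be imported by results

trick_first. Bodies P v = (st W v).erase x, v ∈ far W x (x ∉ st W v). w is a motion on P v, so w = A_v q (h.piece); glue_fixed (h.ov with this x): one skew A. w' = w - A q vanishes on all P v, hence on nb W x (hdom)
and satisfies the same equations. ω := w' x: loop at x: z x = q x ⬝ w' x; edge x v: z v = q x ⬝ w' v + q v ⬝ w' x = q v ⬝ ω.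
-/

set_option autoImplicit false

open scoped Matrix
open Pool.Agent.helper73.TC

namespace Pool.Agent.helper58.FS

variable {V : Type} [Fintype V] [DecidableEq V] (G : SimpleGraph V) [DecidableRel G.Adj]
variable {K : Type} [Field K] [CharZero K]

/-- first stage -/
theorem trick_first (ρ : ℕ) (q : V → Fin ρ → K) (W : Finset V) (h : TrickHyp G ρ q W)
    (x : V) (hx : x ∈ W) (hne : (far G W x).Nonempty) (hfar : NoSep G (far G W x))
    (hdom : ∀ u ∈ nb G W x, ∃ g ∈ far G W x, G.Adj u g)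
    (z : V → K) (w : V → Fin ρ → K) (hloop : ∀ v ∈ W, v ≠ x → q v ⬝ᵥ w v = 0)
    (hedge : ∀ u ∈ W, u ≠ x → ∀ v ∈ W, v ≠ x → G.Adj u v → q u ⬝ᵥ w v + q v ⬝ᵥ w u = 0)
    (hxloop : q x ⬝ᵥ w x = z x)
    (hxedge : ∀ v ∈ W, G.Adj x v → q x ⬝ᵥ w v + q v ⬝ᵥ w x = z v) :
    ∃ ω : Fin ρ → K, ∀ v ∈ st G W x, z v = q v ⬝ᵥ ω := sorry

end Pool.Agent.helper58.FS
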