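import Pool.Agent.helper58.FS.Defs
import Pool.Agent.helper58.FS.Stub.T1
import Pool.Agent.helper58.FS.Stub.T2
import Pool.Agent.helper58.FS.Stub.L
import Pool.Agent.helper58.FS.Stub.O

/-!
# [FS-T3] stub (statements with sorry), NOT to be imported by results

trick_inj. X = V → K, U = {l | ∃ ω, ∀ v ∈ W, l v = q v ⬝ ω} (submodule), Y = V → V → K; for t, l ∈ X let P(t,l) u v = t u * l u if u = v ∈ W, t u * l v + t v * l u if u, v ∈ W adjacent, 0 otherwise (bilinear);
Θ w u v = q u ⬝ w u if u = v ∈ W, q u ⬝ w v + q v ⬝ w u if u, v ∈ W adjacent, 0 otherwise; T = range Θ. P(t, l) ∈ T for l ∈ U (w = t ω; for l supported off W, P = 0 at places in W: P(t,l) = P(t,l') where l' v = q v ⬝ ω).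
e : Fin (r+1) → V from exists_order at x. m_j : X ⧸ U → Y ⧸ T induced by P(single (e j) 1, ·). Apply `leading` (r+1): suppose z ∈ X satisfies for all j: P(e_j, z) ∈ T + ∑_{i<j} P(e_i, X).
j = 0: P(e_0, z) = Θ w: trick_first gives ω with z - qω = 0 on st W x; replace z by z - qω (same class). Induction over j: z = 0 on all v ∈ W with v = e_i or v adjacent to e_i, i < j. E = {e_i | i < j}, x = e_j: reading the equation
P(e_j, z) = ∑_{i<j} P(e_i, l_i) + Θ w at pairs u, v ∉ E (there P(e_i, ·) vanishes) gives exactly the hypotheses of trick_stage (loop at e_j: z (e_j) = 0 since e_j is adjacent to E). Hence z = 0 on N(e_j) as well.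
At the end z = 0 on W, so z ∈ U. `leading` gives t : Fin (r+1) → K, and t v := ∑_j t_j [e_j = v] works (P(t, l) = ∑ t_j P(e_j, l)).
-/

set_option autoImplicit false

open scoped Matrix
open Pool.Agent.helper73.TC

namespace Pool.Agent.helper58.FS

variable {V : Type} [Fintype V] [DecidableEq V] (G : SimpleGraph V) [DecidableRel G.Adj]
variable {K : Type} [Field K] [CharZero K]

/-- some `t` makes the multiplication injective modulo the span of the linear forms -/
theorem trick_inj (ρ : ℕ) (q : V → Fin ρ → K) (W : Finset V) (h : TrickHyp G ρ q W)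
    (x : V) (hx : x ∈ W) (hne : (far G W x).Nonempty) (hfar : NoSep G (far G W x))
    (hdom : ∀ u ∈ nb G W x, ∃ g ∈ far G W x, G.Adj u g) :
    ∃ t : V → K, ∀ (l : V → K) (w : V → Fin ρ → K),
      (∀ v ∈ W, t v * l v = q v ⬝ᵥ w v) →
      (∀ u ∈ W, ∀ v ∈ W, G.Adj u v → t u * l v + t v * l u = q u ⬝ᵥ w v + q v ⬝ᵥ w u) →
      ∃ ω : Fin ρ → K, ∀ v ∈ W, l v = q v ⬝ᵥ ω := sorry

end Pool.Agent.helper58.FS
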