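import Pool.Agent.helper58.FS.Defs
import Pool.Agent.helper58.FS.Stub.G
import Pool.Agent.helper58.FS.Stub.E
import Pool.Agent.helper58.FS.Stub.T1
import Pool.Agent.helper58.FS.Stub.T3

/-!
# [FS-T4] stub (statements with sorry), NOT to be imported by results

trick. exists_generic for S = all (st W v).erase x and W: position q with TrickHyp. trick_inj: t. Position p v = Fin.cons (t v) (q v) in K^(ρ+1); by grig_of_rig it is enough: Rig (ρ+1) p W.
Motion y of p: y v = cons (l v) (y' v): t v * l v + q v ⬝ y' v = 0 etc., so trick_inj with l and w = -y' gives ω with l v = q v ⬝ ω on W. Subtract the skew matrix B = [[0, ωᵀ],[-ω, 0]]: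
y v - B *ᵥ p v = cons 0 (y' v + t v • ω) is again a motion, so y' + t ω is a motion of q on W; whole: = A' *ᵥ q v. A = [[0, ωᵀ],[-ω, A']].
-/

set_option autoImplicit false

open scoped Matrix
open Pool.Agent.helper73.TC

namespace Pool.Agent.helper58.FS

variable {V : Type} [Fintype V] [DecidableEq V] (G : SimpleGraph V) [DecidableRel G.Adj]
variable {K : Type} [Field K] [CharZero K]

theorem trick (ρ : ℕ) (W : Finset V)
    (piece : ∀ v ∈ W, ∀ x ∈ W, x ≠ v → GRig G K ρ ((st G W v).erase x))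
    (ov : ∀ v ∈ W, ∀ v' ∈ W, G.Adj v v' → ∀ x ∈ W, x ≠ v → x ≠ v' →
      ρ ≤ ((st G W v).erase x ∩ (st G W v').erase x).card)
    (sep : ∀ x ∈ W, ∀ A F B : Finset V, A ∪ F ∪ B = nb G W x → Disjoint A F → Disjoint A B →
      Disjoint F B → (∀ a ∈ A, ∀ b ∈ B, ¬ G.Adj a b) → A.Nonempty → B.Nonempty → ρ ≤ F.card + 1)
    (conn : NoSep G W) (whole : GRig G K ρ W)
    (x : V) (hx : x ∈ W) (hne : (far G W x).Nonempty) (hfar : NoSep G (far G W x))
    (hdom : ∀ u ∈ nb G W x, ∃ g ∈ far G W x, G.Adj u g) :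
    GRig G K (ρ + 1) W := sorry

end Pool.Agent.helper58.FS
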