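import Pool.Agent.helper58.FS.Defs
import Pool.Agent.helper58.FS.Stub.C
import Pool.Agent.helper58.FS.Stub.E
import Pool.Agent.helper58.FS.Stub.K
import Pool.Agent.helper58.FS.Stub.U
import Pool.Agent.helper58.FS.Stub.T4

/-!
# [FS-V] stub (statements with sorry), NOT to be imported by results

Notation L = cn σ, for u ∈ L: cn (insert u σ) = nb L u (cn_insert), so st L u = insert u (cn (insert u σ)). Overlap: for adjacent u, u' ∈ L: st L u ∩ st L u' ⊇ {u, u'} ∪ cn (insert u' (insert u σ)),
which has at least 2 + 2(k-1) = 2k elements if k >= 2 (card_cn with k-2), and at least 2 if k = 1.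
lvlA: induction on k. k = 0: grig_one. k >= 1: stars st L u are GRig (k+1) by grig_cone and IH for insert u σ. L itself: grig_glue with D = L (noSep_cn, nonempty by pure), overlap >= k+1. erase x, x ∈ L:
D = far L x (h.conn, h.ne), P u = st L u (x ∉ it), union = L.erase x by far_dom; x ∉ L: erase = L.
lvlB: trick with ρ = k+1, W = L: piece: (st L v).erase x = insert v ((cn (insert v σ)).erase x), grig_cone of lvlA (k-1); overlap >= 2k - 1 >= k + 1; sep: C.sep with k-1 for insert x σ: 2(k-1) <= |F|, k+1 <= |F|+1;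
conn: noSep_cn; whole: lvlA; x ∈ L by pure, h.ne, h.conn, far_dom.
lvlB' (k >= 3): x ∈ L: grig_glue, D = far L x, P u = st L u: grig_cone of lvlB (k-1); overlap >= 2k >= k+2. x ∉ L: lvlB.
lvlC: trick with W = cn ∅ = univ, ρ = d+1, k = d-1 >= 4: piece: grig_cone of lvlB' (k-1) for {v}; overlap 2k-1 >= k+2; sep with k-1 for {x}: 2(k-1) <= |F|, so k+2 <= |F|+1; whole: lvlB k for ∅.
-/

set_option autoImplicit false

open scoped Matrix
open Pool.Agent.helper73.TC

namespace Pool.Agent.helper58.FS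

variable {V : Type} [Fintype V] [DecidableEq V] (G : SimpleGraph V) [DecidableRel G.Adj]
variable {K : Type} [Field K] [CharZero K]

theorem lvlA {d : ℕ} (h : FlagLike G d) (k : ℕ) {σ : Finset V} (hσ : G.IsClique (σ : Set V))
    (hc : σ.card + k + 1 ≤ d) : GRig G K (k + 1) (cn G σ) ∧
      ∀ x, GRig G K (k + 1) ((cn G σ).erase x) := sorry

theorem lvlB {d : ℕ} (h : FlagLike G d) (k : ℕ) (hk : 2 ≤ k) {σ : Finset V}
    (hσ : G.IsClique (σ : Set V)) (hc : σ.card + k + 1 ≤ d) : GRig G K (k + 2) (cn G σ) := sorry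

theorem lvlB' {d : ℕ} (h : FlagLike G d) (k : ℕ) (hk : 3 ≤ k) {σ : Finset V}
    (hσ : G.IsClique (σ : Set V)) (hc : σ.card + k + 1 ≤ d) (x : V) :
    GRig G K (k + 2) ((cn G σ).erase x) := sorry

theorem lvlC {d : ℕ} (hd : 5 ≤ d) (h : FlagLike G d) : GRig G K (d + 2) Finset.univ := sorry

end Pool.Agent.helper58.FS
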